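import Mathlib

namespace Pool.Agent.Results.MP_2bef4d_nt.Infinite

/-- The abcd equation is solvable for `n`. -/
def Abcd (n : ℕ) : Prop := ∃ a b c d : ℕ, 0 < a ∧ 0 < b ∧ 0 < c ∧ 0 < d ∧
  (n : ℚ) = ((a : ℚ) / b + b / a) * ((c : ℚ) / d + d / c)

/-- The integer form is solvable for `n`. -/
def IntForm (n : ℕ) : Prop := ∃ a b : ℕ, 0 < a ∧ 0 < b ∧
  (n : ℚ) = ((a : ℚ) + (a : ℚ)⁻¹) * ((b : ℚ) + (b : ℚ)⁻¹)

lemma vieta (t : ℤ) (s : ℕ) : ∀ a b : ℤ, 0 < a → a ≤ b → b ≤ s → a ^ 2 + b ^ 2 + 1 = t * a * b →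
    t = 3 := by
  induction s with
  | zero => intro a b h1 h2 h3 _; omega
  | succ s ih =>
    intro a b h1 h2 h3 h
    rcases h2.eq_or_lt with rfl | h2
    · have : a ∣ 1 := ⟨t * a - 2 * a, by linarith⟩
      obtain rfl := Int.eq_one_of_dvd_one h1.le this
      linarith
    · have e : b * (t * a - b) = a ^ 2 + 1 := by linarith
      have p : 0 < t * a - b := by
        by_contra c
        nlinarith
      have q : t * a - b ≤ a := by
        by_contra c
        nlinarith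
      exact ih (t * a - b) a p q (by omega) (by linear_combination h)

lemma square {n : ℕ} (h : IntForm n) : ∃ s : ℤ, (n : ℤ) = s ^ 2 + 4 := by
  obtain ⟨a, b, ha, hb, h⟩ := h
  have e : (n : ℤ) * a * b = (a ^ 2 + 1) * (b ^ 2 + 1) := by
    have : (n : ℚ) * a * b = (a ^ 2 + 1) * (b ^ 2 + 1) := by
      rw [h]
      field_simp
    exact_mod_cast this
  have ha' : (0 : ℤ) < a := by exact_mod_cast ha
  have hb' : (0 : ℤ) < b := by exact_mod_cast hb
  have t : (n : ℤ) - a * b = 3 := by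
    rcases le_total (a : ℤ) b with c | c
    · exact vieta _ b a b ha' c le_rfl (by linear_combination -e)
    · exact vieta _ a b a hb' c le_rfl (by linear_combination -e)
  refine ⟨a - b, ?_⟩
  have : (n : ℤ) = a * b + 3 := by linarith
  rw [this] at e ⊢
  linear_combination e

def nxt (p : ZMod 19 × ZMod 19) : ZMod 19 × ZMod 19 := (p.2, (p.2 ^ 4 + 1) * p.1 ^ 17)

lemma seq (j : ℕ) : ∃ c d e f : ℕ, 0 < c ∧ c < d ∧ j < d ∧ c * e = d ^ 4 + 1 ∧ d * f = c ^ 4 + 1 ∧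
    (c : ZMod 19) ≠ 0 ∧ ((c : ZMod 19), (d : ZMod 19)) = nxt^[j] (2, 17) := by
  induction j with
  | zero => exact ⟨2, 17, 41761, 1, by norm_num, by norm_num, by norm_num, by norm_num,
      by norm_num, by decide, rfl⟩
  | succ j ih =>
    obtain ⟨c, d, e, f, h1, h2, h3, h4, h5, h6, h7⟩ := ih
    have de : d < e := by
      by_contra h
      have : c * e ≤ d * d := Nat.mul_le_mul h2.le (by omega)
      have : d * d ≤ d ^ 4 := by
        rw [← sq]
        exact Nat.pow_le_pow_right (by omega) (by norm_num)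
      omega
    have h4' : (c : ℤ) * e = d ^ 4 + 1 := by exact_mod_cast h4
    have h5' : (d : ℤ) * f = c ^ 4 + 1 := by exact_mod_cast h5
    have dv : d ∣ e ^ 4 + 1 := by
      rw [← Int.natCast_dvd_natCast]
      refine ⟨f * e ^ 4 - d ^ 3 * (d ^ 12 + 4 * d ^ 8 + 6 * d ^ 4 + 4), ?_⟩
      push_cast
      linear_combination -(e : ℤ) ^ 4 * h5' - ((c * e) ^ 3 + (c * e) ^ 2 * (d ^ 4 + 1) +
        (c * e) * (d ^ 4 + 1) ^ 2 + (d ^ 4 + 1) ^ 3) * h4'
    obtain ⟨g, hg⟩ := dv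
    have z4 := congrArg (Nat.cast : ℕ → ZMod 19) h4
    have z5 := congrArg (Nat.cast : ℕ → ZMod 19) h5
    push_cast at z4 z5
    refine ⟨d, e, g, c, by omega, de, by omega, hg.symm, by rw [mul_comm, h4], ?_, ?_⟩
    · intro h
      rw [h, zero_mul] at z5
      exact (by decide : ∀ x : ZMod 19, 0 ≠ x ^ 4 + 1) _ z5
    · rw [Function.iterate_succ_apply', ← h7, nxt]
      simp only [← z4]
      rw [mul_right_comm, (by decide : ∀ x : ZMod 19, x ≠ 0 → x * x ^ 17 = 1) _ h6, one_mul]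

/-- Infinitely many `n` have a solution of the abcd equation but none of the integer form. -/
theorem result : {n : ℕ | 0 < n ∧ Abcd n ∧ ¬ IntForm n}.Infinite := by
  refine Set.infinite_of_forall_exists_gt fun N => ?_
  obtain ⟨c, d, e, f, h1, h2, h3, h4, h5, -, h7⟩ := seq (8 * N)
  rw [(show Function.IsPeriodicPt nxt 8 (2, 17) by decide).mul_const N] at h7
  obtain ⟨z1, z2⟩ := Prod.mk.inj h7
  have cop : Nat.Coprime c d := by
    rw [← Nat.isCoprime_iff_coprime]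
    have : (c : ℤ) * e = d ^ 4 + 1 := by exact_mod_cast h4
    exact ⟨e, -d ^ 3, by linear_combination this⟩
  obtain ⟨n, hn⟩ : c * d ∣ (c ^ 2 + d ^ 2) ^ 2 + 1 := cop.mul_dvd_of_dvd_of_dvd
    ⟨e + c ^ 3 + 2 * c * d ^ 2, by rw [mul_add, mul_add, h4]; ring⟩
    ⟨f + d ^ 3 + 2 * d * c ^ 2, by rw [mul_add, mul_add, h5]; ring⟩
  have big : d < n := by
    by_contra h
    have : c * d * n ≤ d * d * d := Nat.mul_le_mul (Nat.mul_le_mul_right _ h2.le) (by omega)
    have : d * d * d ≤ d * d * d * d := Nat.le_mul_of_pos_right _ (by omega)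
    nlinarith [Nat.zero_le (c ^ 4), Nat.zero_le (c ^ 2 * d ^ 2)]
  refine ⟨n, ⟨by omega, ⟨c ^ 2 + d ^ 2, 1, c, d, by positivity, one_pos, h1, by omega, ?_⟩,
    fun h => ?_⟩, by omega⟩
  · have : ((c : ℚ) ^ 2 + d ^ 2) ^ 2 + 1 = c * d * n := by exact_mod_cast hn
    have c0 : (0 : ℚ) < c := by exact_mod_cast h1
    have d0 : (0 : ℚ) < d := by exact_mod_cast (by omega : 0 < d)
    push_cast
    field_simp
    linear_combination -this
  · obtain ⟨s, hs⟩ := square h
    have z3 := congrArg (Nat.cast : ℕ → ZMod 19) hn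
    have z4 := congrArg (Int.cast : ℤ → ZMod 19) hs
    push_cast at z3 z4
    rw [z1, z2, z4] at z3
    exact (by decide : ∀ x : ZMod 19, (2 ^ 2 + 17 ^ 2) ^ 2 + 1 ≠ 2 * 17 * (x ^ 2 + 4)) _ z3

end Pool.Agent.Results.MP_2bef4d_nt.Infinite
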